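import Pool.Agent.H12.HF.Bridge

/-!
# Hilbert schemes of points of the surface z^2 = x^4 + y^4 are irreducible
-/

namespace Pool.Agent.Results.MP_eb1332_ag.IrreducibleHilbertSchemes

open Pool.Agent.H12.HF CategoryTheory AlgebraicGeometry

universe u

/-- The normal surface `S : z^2 = x^4 + y^4` over an algebraically closed field `k` of
characteristic zero has a singular point that is not du Val, and all its Hilbert schemes of
points are irreducible. -/
theorem result (k : Type u) [Field k] [IsAlgClosed k] [CharZero k] :
    IsNormalSurface k (SurfRing k) ∧ IsNonDuValPoint k (origin k) ∧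
    (∀ d : ℕ, 1 ≤ d → IrreducibleSpace (HilbPt k (SurfRing k) d)) ∧
    (∀ d : ℕ, 1 ≤ d → ∀ (H : Scheme.{u}) (s : H ⟶ Spec (CommRingCat.of k)),
      IsHilbertScheme k (SurfRing k) d H s → IrreducibleSpace H) :=
  ⟨normalSurface k, nonDuVal k, hilbPt k, hilbScheme k⟩

end Pool.Agent.Results.MP_eb1332_ag.IrreducibleHilbertSchemes
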